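import Pool.Agent.Lib.QW.Reduce

/-!
Existence and uniqueness of the critical point and of the minimum over `[1, oo) ^ 2` of the inventory
of a non-singular weighted small-step set.
-/

set_option autoImplicit false

namespace Pool.Agent.H62I

open Finset Filter Pool.Agent.QW

variable {S : Finset (ℤ × ℤ)} {a : ℤ × ℤ → ℝ}

/-- The inventory in logarithmic coordinates. -/
noncomputable def ff (S : Finset (ℤ × ℤ)) (a : ℤ × ℤ → ℝ) (p : ℝ × ℝ) : ℝ :=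
  ∑ s ∈ S, a s * Real.exp (p.1 * s.1 + p.2 * s.2)

theorem inv_exp (u v : ℝ) : inv S a (Real.exp u) (Real.exp v) = ff S a (u, v) := by
  unfold inv ff
  refine sum_congr rfl fun s _ => ?_
  rw [Real.exp_add, ← Real.rpow_intCast, ← Real.rpow_intCast, ← Real.exp_mul, ← Real.exp_mul,
    mul_assoc]

theorem inv_eq_ff {x y : ℝ} (hx : 0 < x) (hy : 0 < y) :
    inv S a x y = ff S a (Real.log x, Real.log y) := by
  rw [← inv_exp, Real.exp_log hx, Real.exp_log hy]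

theorem ff_continuous : Continuous (ff S a) := by
  unfold ff
  fun_prop

/-- A linear lower bound for the largest exponent. -/
theorem exists_delta
    (hns : ∀ u v : ℝ, (u ≠ 0 ∨ v ≠ 0) → ∃ s ∈ S, u * (s.1 : ℝ) + v * (s.2 : ℝ) < 0) :
    ∃ δ : ℝ, 0 < δ ∧ ∀ p : ℝ × ℝ, ∃ s ∈ S, δ * ‖p‖ ≤ p.1 * s.1 + p.2 * s.2 := by
  have hne : S.Nonempty := by
    obtain ⟨s, hs, _⟩ := hns 1 0 (Or.inl one_ne_zero)
    exact ⟨s, hs⟩
  -- the function `p ↦ max_s (p · s)` on the sphere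
  set g : ℝ × ℝ → ℝ := fun p => S.sup' hne fun s => p.1 * (s.1 : ℝ) + p.2 * (s.2 : ℝ) with hg
  have hgc : Continuous g := by
    refine Continuous.finset_sup'_apply hne fun s _ => ?_
    fun_prop
  have hcomp : IsCompact (Metric.sphere (0 : ℝ × ℝ) 1) := isCompact_sphere 0 1
  have hsne : (Metric.sphere (0 : ℝ × ℝ) 1).Nonempty := by
    refine ⟨(1, 0), ?_⟩
    simp [Prod.norm_def]
  obtain ⟨p₀, hp₀, hmin⟩ := hcomp.exists_isMinOn hsne hgc.continuousOn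
  have hpos : 0 < g p₀ := by
    have hp0 : p₀ ≠ 0 := by
      intro h
      rw [h] at hp₀
      simp at hp₀
    have h1 : (-p₀.1) ≠ 0 ∨ (-p₀.2) ≠ 0 := by
      by_contra hcon
      push Not at hcon
      exact hp0 (Prod.ext (by simpa using hcon.1) (by simpa using hcon.2))
    obtain ⟨s, hs, hlt⟩ := hns _ _ h1
    have h2 : p₀.1 * (s.1 : ℝ) + p₀.2 * (s.2 : ℝ) ≤ g p₀ :=
      Finset.le_sup' (fun s : ℤ × ℤ => p₀.1 * (s.1 : ℝ) + p₀.2 * (s.2 : ℝ)) hs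
    linarith
  refine ⟨g p₀, hpos, fun p => ?_⟩
  rcases eq_or_ne p 0 with rfl | hp
  · obtain ⟨s, hs⟩ := hne
    exact ⟨s, hs, by simp⟩
  · have hn : 0 < ‖p‖ := norm_pos_iff.2 hp
    have h1 : (‖p‖⁻¹ • p) ∈ Metric.sphere (0 : ℝ × ℝ) 1 := by
      rw [mem_sphere_zero_iff_norm, norm_smul, norm_inv, norm_norm, inv_mul_cancel₀ hn.ne']
    have h2 : g p₀ ≤ g (‖p‖⁻¹ • p) := hmin h1
    obtain ⟨s, hs, hs2⟩ := Finset.exists_mem_eq_sup' hne
      (fun s : ℤ × ℤ => (‖p‖⁻¹ • p).1 * (s.1 : ℝ) + (‖p‖⁻¹ • p).2 * (s.2 : ℝ))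
    refine ⟨s, hs, ?_⟩
    have h3 : g (‖p‖⁻¹ • p) = ‖p‖⁻¹ * (p.1 * s.1 + p.2 * s.2) := by
      show S.sup' hne _ = _
      rw [hs2]
      simp only [Prod.smul_fst, Prod.smul_snd, smul_eq_mul]
      ring
    rw [h3] at h2
    have h4 := mul_le_mul_of_nonneg_left h2 hn.le
    rw [← mul_assoc, mul_inv_cancel₀ hn.ne', one_mul] at h4
    linarith

/-- The inventory tends to infinity. -/
theorem ff_tendsto (hpos : ∀ s ∈ S, 0 < a s)
    (hns : ∀ u v : ℝ, (u ≠ 0 ∨ v ≠ 0) → ∃ s ∈ S, u * (s.1 : ℝ) + v * (s.2 : ℝ) < 0) :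
    Tendsto (ff S a) (cocompact (ℝ × ℝ)) atTop := by
  obtain ⟨δ, hδ, h⟩ := exists_delta hns
  have hne : S.Nonempty := by
    obtain ⟨s, hs, _⟩ := hns 1 0 (Or.inl one_ne_zero)
    exact ⟨s, hs⟩
  obtain ⟨s₀, hs₀, hmin⟩ := S.exists_min_image a hne
  have h1 : ∀ p, a s₀ * Real.exp (δ * ‖p‖) ≤ ff S a p := by
    intro p
    obtain ⟨s, hs, hsp⟩ := h p
    have h2 : a s * Real.exp (p.1 * s.1 + p.2 * s.2) ≤ ff S a p :=
      single_le_sum (f := fun s : ℤ × ℤ => a s * Real.exp (p.1 * s.1 + p.2 * s.2))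
        (fun t ht => (mul_pos (hpos t ht) (Real.exp_pos _)).le) hs
    refine le_trans ?_ h2
    exact mul_le_mul (hmin s hs) (Real.exp_le_exp.2 hsp) (Real.exp_pos _).le (hpos s hs).le
  refine tendsto_atTop_mono h1 ?_
  refine Tendsto.const_mul_atTop (hpos s₀ hs₀) ?_
  refine Real.tendsto_exp_atTop.comp ?_
  exact Tendsto.const_mul_atTop hδ tendsto_norm_cocompact_atTop

/-- The minimum over a closed set is attained. -/
theorem exists_min_on (hpos : ∀ s ∈ S, 0 < a s)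
    (hns : ∀ u v : ℝ, (u ≠ 0 ∨ v ≠ 0) → ∃ s ∈ S, u * (s.1 : ℝ) + v * (s.2 : ℝ) < 0)
    (A : Set (ℝ × ℝ)) (hA : IsClosed A) (hA0 : (0 : ℝ × ℝ) ∈ A) :
    ∃ p ∈ A, ∀ q ∈ A, ff S a p ≤ ff S a q := by
  obtain ⟨p, hp, hmin⟩ := ff_continuous (S := S) (a := a).continuousOn.exists_isMinOn' hA hA0
    (((ff_tendsto hpos hns).eventually_ge_atTop (ff S a 0)).filter_mono inf_le_left)
  exact ⟨p, hp, fun q hq => hmin hq⟩

/-- The critical point exists. -/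
theorem crit_exists (hpos : ∀ s ∈ S, 0 < a s)
    (hns : ∀ u v : ℝ, (u ≠ 0 ∨ v ≠ 0) → ∃ s ∈ S, u * (s.1 : ℝ) + v * (s.2 : ℝ) < 0) :
    ∃ x y : ℝ, 0 < x ∧ 0 < y ∧
      ∑ s ∈ S, a s * (s.1 : ℝ) * x ^ (s.1 - 1) * y ^ s.2 = 0 ∧
      ∑ s ∈ S, a s * (s.2 : ℝ) * x ^ s.1 * y ^ (s.2 - 1) = 0 := by
  obtain ⟨p, _, hp⟩ := exists_min_on hpos hns Set.univ isClosed_univ (Set.mem_univ _)
  have hx := Real.exp_pos p.1
  have hy := Real.exp_pos p.2
  refine ⟨Real.exp p.1, Real.exp p.2, hx, hy, ?_, ?_⟩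
  · refine IsLocalMin.hasDerivAt_eq_zero ?_ (inv_hasDerivAt_fst (S := S) (a := a) _ hx)
    filter_upwards [Ioi_mem_nhds hx] with x hx'
    rw [inv_exp, inv_eq_ff hx' hy, Real.log_exp]
    exact hp _ (Set.mem_univ _)
  · refine IsLocalMin.hasDerivAt_eq_zero ?_ (inv_hasDerivAt_snd (S := S) (a := a) _ hy)
    filter_upwards [Ioi_mem_nhds hy] with y hy'
    rw [inv_exp, inv_eq_ff hx hy', Real.log_exp]
    exact hp _ (Set.mem_univ _)

/-- The minimum over `[1, oo) ^ 2` exists. -/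
theorem qmin_exists (hpos : ∀ s ∈ S, 0 < a s)
    (hns : ∀ u v : ℝ, (u ≠ 0 ∨ v ≠ 0) → ∃ s ∈ S, u * (s.1 : ℝ) + v * (s.2 : ℝ) < 0) :
    ∃ x y : ℝ, 1 ≤ x ∧ 1 ≤ y ∧ ∀ x' y' : ℝ, 1 ≤ x' → 1 ≤ y' → inv S a x y ≤ inv S a x' y' := by
  obtain ⟨p, hpA, hp⟩ := exists_min_on hpos hns {p | 0 ≤ p.1 ∧ 0 ≤ p.2}
    ((isClosed_le continuous_const continuous_fst).inter
      (isClosed_le continuous_const continuous_snd)) ⟨le_rfl, le_rfl⟩
  refine ⟨Real.exp p.1, Real.exp p.2, Real.one_le_exp hpA.1, Real.one_le_exp hpA.2, ?_⟩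
  intro x' y' hx' hy'
  rw [inv_exp, inv_eq_ff (by linarith) (by linarith)]
  exact hp _ ⟨Real.log_nonneg hx', Real.log_nonneg hy'⟩

/-- The minimum over an edge exists. -/
theorem emin_exists_fst (hpos : ∀ s ∈ S, 0 < a s)
    (hns : ∀ u v : ℝ, (u ≠ 0 ∨ v ≠ 0) → ∃ s ∈ S, u * (s.1 : ℝ) + v * (s.2 : ℝ) < 0) :
    ∃ x : ℝ, 1 ≤ x ∧ ∀ x' : ℝ, 1 ≤ x' → inv S a x 1 ≤ inv S a x' 1 := by
  obtain ⟨p, hpA, hp⟩ := exists_min_on hpos hns {p | 0 ≤ p.1 ∧ p.2 = 0}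
    ((isClosed_le continuous_const continuous_fst).inter
      (isClosed_eq continuous_snd continuous_const)) ⟨le_rfl, rfl⟩
  refine ⟨Real.exp p.1, Real.one_le_exp hpA.1, ?_⟩
  intro x' hx'
  have h1 : Real.exp p.2 = 1 := by rw [hpA.2, Real.exp_zero]
  rw [← h1, inv_exp, inv_eq_ff (by linarith) (Real.exp_pos _), Real.log_exp]
  exact hp _ ⟨Real.log_nonneg hx', hpA.2⟩

theorem emin_exists_snd (hpos : ∀ s ∈ S, 0 < a s)
    (hns : ∀ u v : ℝ, (u ≠ 0 ∨ v ≠ 0) → ∃ s ∈ S, u * (s.1 : ℝ) + v * (s.2 : ℝ) < 0) :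
    ∃ y : ℝ, 1 ≤ y ∧ ∀ y' : ℝ, 1 ≤ y' → inv S a 1 y ≤ inv S a 1 y' := by
  obtain ⟨p, hpA, hp⟩ := exists_min_on hpos hns {p | p.1 = 0 ∧ 0 ≤ p.2}
    ((isClosed_eq continuous_fst continuous_const).inter
      (isClosed_le continuous_const continuous_snd)) ⟨rfl, le_rfl⟩
  refine ⟨Real.exp p.2, Real.one_le_exp hpA.2, ?_⟩
  intro y' hy'
  have h1 : Real.exp p.1 = 1 := by rw [hpA.1, Real.exp_zero]
  rw [← h1, inv_exp, inv_eq_ff (Real.exp_pos _) (by linarith), Real.log_exp]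
  exact hp _ ⟨hpA.1, Real.log_nonneg hy'⟩

/-- The minimum over `[1, oo) ^ 2` is unique. -/
theorem qmin_unique (hpos : ∀ s ∈ S, 0 < a s)
    (hns : ∀ u v : ℝ, (u ≠ 0 ∨ v ≠ 0) → ∃ s ∈ S, u * (s.1 : ℝ) + v * (s.2 : ℝ) < 0)
    {x y z w : ℝ} (hx : 1 ≤ x) (hy : 1 ≤ y) (hz : 1 ≤ z) (hw : 1 ≤ w)
    (h1 : ∀ x' y' : ℝ, 1 ≤ x' → 1 ≤ y' → inv S a x y ≤ inv S a x' y')
    (h2 : ∀ x' y' : ℝ, 1 ≤ x' → 1 ≤ y' → inv S a z w ≤ inv S a x' y') : x = z ∧ y = w := by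
  by_contra hne
  have hx0 : 0 < x := by linarith
  have hy0 : 0 < y := by linarith
  have hz0 : 0 < z := by linarith
  have hw0 : 0 < w := by linarith
  set u : ℝ := Real.log x - Real.log z with hu
  set v : ℝ := Real.log y - Real.log w with hv
  have huv : u ≠ 0 ∨ v ≠ 0 := by
    by_contra hcon
    push Not at hcon
    apply hne
    constructor
    · exact Real.log_injOn_pos hx0 hz0 (by linarith [hcon.1])
    · exact Real.log_injOn_pos hy0 hw0 (by linarith [hcon.2])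
  obtain ⟨s₀, hs₀, hneg⟩ := hns u v huv
  -- the midpoint
  set r : ℝ × ℝ := ((Real.log x + Real.log z) / 2, (Real.log y + Real.log w) / 2) with hr
  have hr1 : 1 ≤ Real.exp r.1 :=
    Real.one_le_exp (by
      have := Real.log_nonneg hx
      have := Real.log_nonneg hz
      simp only [hr]
      linarith)
  have hr2 : 1 ≤ Real.exp r.2 :=
    Real.one_le_exp (by
      have := Real.log_nonneg hy
      have := Real.log_nonneg hw
      simp only [hr]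
      linarith)
  have e1 := h1 _ _ hr1 hr2
  have e2 := h2 _ _ hr1 hr2
  rw [inv_exp, inv_eq_ff hx0 hy0] at e1
  rw [inv_exp, inv_eq_ff hz0 hw0] at e2
  have hterm : ∀ s : ℤ × ℤ, Real.exp (r.1 * s.1 + r.2 * s.2) =
      Real.exp ((Real.log x * s.1 + Real.log y * s.2) / 2) *
        Real.exp ((Real.log z * s.1 + Real.log w * s.2) / 2) := by
    intro s
    rw [← Real.exp_add]
    congr 1
    simp only [hr]
    ring
  have hsq : ∀ t : ℝ, Real.exp t = Real.exp (t / 2) * Real.exp (t / 2) := by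
    intro t
    rw [← Real.exp_add]
    congr 1
    ring
  have hle : ∀ s ∈ S, a s * Real.exp (r.1 * s.1 + r.2 * s.2) ≤
      (a s * Real.exp (Real.log x * s.1 + Real.log y * s.2) +
        a s * Real.exp (Real.log z * s.1 + Real.log w * s.2)) / 2 := by
    intro s hs
    rw [hterm s, hsq (Real.log x * s.1 + Real.log y * s.2),
      hsq (Real.log z * s.1 + Real.log w * s.2)]
    have := hpos s hs
    nlinarith [mul_nonneg this.le (sq_nonneg (Real.exp ((Real.log x * s.1 + Real.log y * s.2) / 2) -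
      Real.exp ((Real.log z * s.1 + Real.log w * s.2) / 2)))]
  have hlt : a s₀ * Real.exp (r.1 * s₀.1 + r.2 * s₀.2) <
      (a s₀ * Real.exp (Real.log x * s₀.1 + Real.log y * s₀.2) +
        a s₀ * Real.exp (Real.log z * s₀.1 + Real.log w * s₀.2)) / 2 := by
    rw [hterm s₀, hsq (Real.log x * s₀.1 + Real.log y * s₀.2),
      hsq (Real.log z * s₀.1 + Real.log w * s₀.2)]
    have h3 := hpos s₀ hs₀
    have h4 : Real.exp ((Real.log x * s₀.1 + Real.log y * s₀.2) / 2) <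
        Real.exp ((Real.log z * s₀.1 + Real.log w * s₀.2) / 2) := by
      apply Real.exp_lt_exp.2
      rw [hu, hv] at hneg
      linarith
    nlinarith [mul_pos h3 (mul_pos (sub_pos.2 h4) (sub_pos.2 h4))]
  have hsum : ff S a r < (ff S a (Real.log x, Real.log y) + ff S a (Real.log z, Real.log w)) / 2 := by
    unfold ff
    rw [← sum_add_distrib, sum_div]
    exact sum_lt_sum hle ⟨s₀, hs₀, hlt⟩
  have e1' : ff S a (Real.log x, Real.log y) ≤ ff S a r := e1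
  have e2' : ff S a (Real.log z, Real.log w) ≤ ff S a r := e2
  linarith

end Pool.Agent.H62I
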